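import Pool.Agent.H8.WP.Targets

/-!
# Row MO: the model satisfies the axioms
-/

set_option autoImplicit false

namespace Pool.Agent.H35.WP

open Pool.Agent.H69.Sp Pool.Agent.H69.Mt Pool.Agent.H16.TO Pool.Agent.H8.PL Pool.Agent.H8.DI
open Pool.Agent.H8.WP

section
variable {W H i : ℕ}

theorem div_lt (h : i < W * H) : i / H < W := Nat.div_lt_of_lt_mul (by rwa [mul_comm])

theorem fc_iff (hH : 0 < H) : i < H ↔ i / H = 0 := by
  rw [Nat.div_eq_zero_iff]
  constructor
  · exact fun h => Or.inr h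
  · rintro (h | h)
    · omega
    · exact h

theorem lc_iff (hH : 0 < H) (h : i < W * H) : W * H ≤ i + H ↔ i / H + 1 = W := by
  have h1 := Nat.div_add_mod i H
  have h2 := Nat.mod_lt i hH
  have h3 := div_lt h
  constructor
  · intro h4
    by_contra h5
    have h6 : i / H + 2 ≤ W := by omega
    have h7 := Nat.mul_le_mul_right H h6
    have h8 : (i / H + 2) * H = H * (i / H) + 2 * H := by ring
    omega
  · intro h4
    rw [← h4]
    have h8 : (i / H + 1) * H = H * (i / H) + H := by ring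
    omega

theorem tp_iff (hH : 0 < H) : H ∣ i + 1 ↔ i % H + 1 = H := by
  have h2 := Nat.mod_lt i hH
  rw [Nat.dvd_iff_mod_eq_zero, Nat.add_mod]
  by_cases h1 : H = 1
  · subst h1
    simp
  · rw [Nat.mod_eq_of_lt (show 1 < H by omega)]
    constructor
    · intro h3
      by_contra h4
      rw [Nat.mod_eq_of_lt (by omega)] at h3
      omega
    · intro h3
      rw [h3, Nat.mod_self]

theorem bt_iff : H ∣ i ↔ i % H = 0 := Nat.dvd_iff_mod_eq_zero

theorem mx_iff (hH : 0 < H) (h : i < W * H) :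
    (W * H ≤ i + H ∧ H ∣ i + 1) ↔ i + 1 = W * H := by
  constructor
  · rintro ⟨h1, h2⟩
    rw [lc_iff hH h] at h1
    rw [tp_iff hH] at h2
    have h3 := Nat.div_add_mod i H
    rw [← h1]
    have h8 : (i / H + 1) * H = H * (i / H) + H := by ring
    omega
  · intro h1
    refine ⟨by omega, ?_⟩
    rw [h1]
    exact Dvd.intro_left W rfl

theorem mn_iff : (i < H ∧ H ∣ i) ↔ (i = 0 ∧ 0 < H) := by
  constructor
  · rintro ⟨h1, h2⟩
    exact ⟨Nat.eq_zero_of_dvd_of_lt h2 h1, by omega⟩
  · rintro ⟨rfl, h⟩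
    exact ⟨h, dvd_zero _⟩

theorem next_div (hH : 0 < H) (h : ¬ H ∣ i + 1) :
    (i + 1) / H = i / H ∧ (i + 1) % H = i % H + 1 ∧ i % H + 1 < H := by
  have h1 : i % H + 1 < H := by
    rw [tp_iff hH] at h
    have := Nat.mod_lt i hH
    omega
  have h2 := Nat.div_add_mod i H
  refine ⟨?_, ?_, h1⟩
  · conv_lhs => rw [← h2, add_assoc, Nat.mul_add_div hH, Nat.div_eq_of_lt h1, add_zero]
  · conv_lhs => rw [← h2, add_assoc, Nat.mul_add_mod, Nat.mod_eq_of_lt h1]

end

section
variable {Q : Type} {n H : ℕ} {t : ℕ → ℕ → Q}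

theorem ex_of {n : ℕ} (b : Bool) (m : ℕ) (hm : m < n) (p : ℕ → Prop) (hp : ∀ i, p i ↔ i = m) :
    ∃! y : Bool × Fin n, (y.1 = b) ∧ p y.2.1 := by
  refine ⟨(b, ⟨m, hm⟩), ⟨rfl, (hp m).mpr rfl⟩, ?_⟩
  rintro ⟨c, i⟩ ⟨h1, h2⟩
  have h3 := (hp _).mp h2
  simp only at h1 h3
  subst h1
  congr
  exact Fin.ext h3

end

theorem pf_mo : W_MO := by
  intro Q U Hh Vv W H t hW hH ⟨hU, hHh, hVv⟩
  have hmx : ∀ x : Bool × Fin (W * H), mx (stW (W * H) H t x) ↔ x.2.1 + 1 = W * H := by
    intro x
    unfold mx stW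
    simp only [decide_eq_true_eq]
    exact mx_iff hH x.2.2
  have hmn : ∀ x : Bool × Fin (W * H), mn (stW (W * H) H t x) ↔ x.2.1 = 0 := by
    intro x
    unfold mn stW
    simp only [decide_eq_true_eq]
    rw [mn_iff]
    exact ⟨fun h => h.1, fun h => ⟨h, hH⟩⟩
  refine ⟨?_, ?_, ?_, ?_, ?_, ?_, ?_, ?_, ?_, ?_, ?_, ?_, ?_, ?_, ?_, ?_, ?_, ?_, ?_, ?_, ?_, ?_⟩
  · -- irr
    rintro ⟨b, i⟩ h
    rcases b <;> simp [ltM] at h
  · -- tot
    rintro ⟨b, i⟩ ⟨c, j⟩ h
    simp only [stW] at h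
    subst h
    rcases lt_trichotomy i.1 j.1 with h | h | h
    · exact Or.inr (Or.inl (Or.inl ⟨rfl, h⟩))
    · left
      rw [Fin.ext h]
    · exact Or.inr (Or.inr (Or.inl ⟨rfl, h⟩))
  · -- fcm
    intro x y h1 h2 h3
    simp only [stW, decide_eq_true_eq] at h1 h3 ⊢
    rcases h2 with ⟨-, h⟩ | ⟨h, h', -⟩ | ⟨h, h', -⟩
    · omega
    · rw [h, h'] at h1
      exact absurd h1 (by decide)
    · rw [h, h'] at h1
      exact absurd h1 (by decide)
  · -- lcm
    intro x y h1 h2 h3
    simp only [stW, decide_eq_true_eq] at h1 h3 ⊢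
    rcases h2 with ⟨-, h⟩ | ⟨h, h', -⟩ | ⟨h, h', -⟩
    · omega
    · rw [h, h'] at h1
      exact absurd h1 (by decide)
    · rw [h, h'] at h1
      exact absurd h1 (by decide)
  · -- mxx
    intro x y h1 h3 h2
    simp only [stW] at h1
    rw [hmx] at h3
    rcases h2 with ⟨-, h⟩ | ⟨h, h', -⟩ | ⟨h, h', -⟩
    · have := y.2.2
      omega
    · rw [h, h'] at h1
      exact absurd h1 (by decide)
    · rw [h, h'] at h1
      exact absurd h1 (by decide)
  · -- mnn
    intro x y h1 h3 h2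
    simp only [stW] at h1
    rw [hmn] at h3
    rcases h2 with ⟨-, h⟩ | ⟨h, h', -⟩ | ⟨h, h', -⟩
    · omega
    · rw [h, h'] at h1
      exact absurd h1 (by decide)
    · rw [h, h'] at h1
      exact absurd h1 (by decide)
  · -- su
    intro x h1 h2
    rw [hmx] at h2
    have := x.2.2
    exact ex_of false (x.2.1 + 1) (by omega) (fun i => i = x.2.1 + 1) (fun i => Iff.rfl)
  · -- su'
    intro y h1 h2
    rw [hmn] at h2
    have := y.2.2
    exact ex_of false (y.2.1 - 1) (by omega) (fun i => y.2.1 = i + 1) (fun i => by omega)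
  · -- sl
    intro x y h1 h2 h3
    simp only [stW] at h1 h2
    beta_reduce at h3
    simp only [stW, decide_eq_true_eq, decide_eq_false_iff_not]
    refine ⟨Or.inl ⟨by rw [h1, h2], by omega⟩, by rw [h3], ?_, ?_⟩
    · intro h4
      rw [h3]
      have h5 : H ∣ x.2.1 + 1 ↔ ¬ (x.2.1 + 1 < H) := by
        constructor
        · intro h6 h7
          have := Nat.eq_zero_of_dvd_of_lt h6 h7
          omega
        · intro h6
          have h7 : x.2.1 + 1 = H := by omega
          rw [h7]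
      by_cases h6 : x.2.1 + 1 < H
      · simp [h5, h6]
      · simp [h5, h6]
    · intro h4
      obtain ⟨e1, e2, e3⟩ := next_div hH h4
      rw [h3, e1, e2]
      exact hVv _ _ (div_lt x.2.2) e3
  · -- ii
    intro x h1
    exact ex_of true x.2.1 x.2.2 (fun i => i = x.2.1) (fun i => Iff.rfl)
  · -- ii'
    intro y h1
    exact ex_of false y.2.1 y.2.2 (fun i => y.2.1 = i) (fun i => eq_comm)
  · -- il
    intro x y h1 h2 h3
    simp only [stW] at h1 h2
    beta_reduce at h3
    simp only [stW]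
    rw [h3]
    exact ⟨Or.inr (Or.inl ⟨h2, h1, by omega⟩), rfl, rfl, rfl, rfl, rfl⟩
  · -- dd
    intro x h1 h2
    rw [hmx] at h2
    have := x.2.2
    exact ex_of true (x.2.1 + 1) (by omega) (fun i => i = x.2.1 + 1) (fun i => Iff.rfl)
  · -- dd'
    intro y h1 h2
    rw [hmn] at h2
    have := y.2.2
    exact ex_of false (y.2.1 - 1) (by omega) (fun i => y.2.1 = i + 1) (fun i => by omega)
  · -- dl
    intro x y h1 h2 h3
    rw [hmx, hmn]
    simp only [stW] at h1 h2
    beta_reduce at h3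
    have := y.2.2
    refine ⟨?_, by omega, by omega⟩
    rintro (⟨h, -⟩ | ⟨-, -, h⟩ | ⟨h, -, -⟩)
    · rw [h1, h2] at h
      exact absurd h (by decide)
    · omega
    · rw [h2] at h
      exact absurd h (by decide)
  · -- ff
    intro x h1 h2
    simp only [stW, decide_eq_false_iff_not] at h2
    exact ex_of true (x.2.1 + H) (by omega) (fun i => i = x.2.1 + H) (fun i => Iff.rfl)
  · -- ff'
    intro y h1 h2
    simp only [stW, decide_eq_false_iff_not] at h2
    have := y.2.2
    exact ex_of false (y.2.1 - H) (by omega) (fun i => y.2.1 = i + H) (fun i => by omega)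
  · -- fl
    intro x y h1 h2 h3
    simp only [stW] at h1 h2
    beta_reduce at h3
    have hy := y.2.2
    simp only [stW, decide_eq_false_iff_not]
    have e1 : y.2.1 / H = x.2.1 / H + 1 := by
      rw [h3, Nat.add_div_right _ hH]
    have e2 : y.2.1 % H = x.2.1 % H := by
      rw [h3, Nat.add_mod_right]
    refine ⟨Or.inr (Or.inr ⟨h1, h2, by omega⟩), by omega, by omega, ?_, ?_, ?_⟩
    · rw [decide_eq_decide, bt_iff, bt_iff, e2]
    · rw [decide_eq_decide, tp_iff hH, tp_iff hH, e2]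
    · rw [e1, e2]
      refine hHh _ _ ?_ (Nat.mod_lt _ hH)
      rw [← e1]
      exact div_lt hy
  · -- gg
    intro x h1 h2
    simp only [stW, decide_eq_false_iff_not] at h2
    exact ex_of true (x.2.1 + H - 1) (by omega) (fun i => i + 1 = x.2.1 + H) (fun i => by omega)
  · -- gg'
    intro y x x' h1 h2 h3 h4 h5
    simp only [stW] at h2 h3
    beta_reduce at h4 h5
    refine Prod.ext (h2.trans h3.symm) (Fin.ext ?_)
    omega
  · -- gl
    intro x y h1 h2 h3
    simp only [stW] at h1 h2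
    beta_reduce at h3
    simp only [stW, decide_eq_true_eq]
    refine ⟨?_, fun h4 => ?_⟩
    · rintro (⟨h, -⟩ | ⟨h, -, -⟩ | ⟨-, -, h⟩)
      · rw [h1, h2] at h
        exact absurd h (by decide)
      · rw [h1] at h
        exact absurd h (by decide)
      · omega
    · have h5 : y.2.1 + 1 = H := by omega
      rw [h5]
  · -- un
    intro x
    have hx := x.2.2
    have h1 := hU (x.2.1 / H) (div_lt hx) (x.2.1 % H) (Nat.mod_lt _ hH)
    simp only [stW]
    have e1 : decide (x.2.1 < H) = decide (x.2.1 / H = 0) := by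
      rw [decide_eq_decide]
      exact fc_iff hH
    have e2 : decide (W * H ≤ x.2.1 + H) = decide (x.2.1 / H + 1 = W) := by
      rw [decide_eq_decide]
      exact lc_iff hH hx
    have e3 : decide (H ∣ x.2.1) = decide (x.2.1 % H = 0) := by
      rw [decide_eq_decide]
      exact bt_iff
    have e4 : decide (H ∣ x.2.1 + 1) = decide (x.2.1 % H + 1 = H) := by
      rw [decide_eq_decide]
      exact tp_iff hH
    rw [e1, e2, e3, e4]
    exact h1

end Pool.Agent.H35.WP
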